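import Pool.Agent.H84.GamC

namespace Pool.Agent.Results.MP_decccb_lc.Yes

open Pool.Agent.H84.GamDefs

theorem result (T : Set (List Bool)) (hT : Subtree T) (h : 1 / 2 < dim (canopy T))
    (δ : ENNReal) (h1 : 1 / 2 ≤ δ) (h2 : δ ≤ dim (canopy T)) :
    ∃ W W₁ W₂ : Set (ℕ → Bool), W ⊆ canopy T ∧ W₁ ⊆ canopy T ∧ W₂ ⊆ canopy T ∧
      dim W = δ ∧ dim W₁ = δ ∧ dim W₂ = δ ∧ ¬ WinI T W ∧ ¬ WinII T W ∧ WinI T W₁ ∧ WinII T W₂ :=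
  Pool.Agent.H84.Gam.main hT (one_div (2 : ENNReal) ▸ h) (one_div (2 : ENNReal) ▸ h1) h2

end Pool.Agent.Results.MP_decccb_lc.Yes
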